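import Pool.Agent.Work.MP_274868_ag.Cay.Main

/-! A lower bound for the degree of equivariant rational maps from `SL n` modulo the scalar
`d`-th roots of unity to the Lie algebra. -/

namespace Pool.Agent.Results.MP_274868_ag.DegreeUnbounded

open Pool.Agent.Work.MP_274868_ag.Cay

theorem result (k K : Type*) [Field k] [IsAlgClosed k] [CharZero k] [Field K] [Algebra k K]
    (p n d : ℕ) (hp : p.Prime) (hd : d * p ∣ n) (hn : 3 * p ≤ n)
    (X Y : Matrix (Fin n) (Fin n) K) (hX : IsGeneric k X) (hq : ∀ i j, Y i j ∈ quot k X d)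
    (htr : Y.trace = 0)
    (hY : ∀ h : Matrix.SpecialLinearGroup (Fin n) k, ∃ σ : K →ₐ[k] K,
      X.map σ = conj h X ∧ Y.map σ = conj h Y) :
    (p : Cardinal) ≤ IntermediateField.relrank (entries k Y) (quot k X d) :=
  lower_bound_generic k hp hd hn hX hq htr hY

end Pool.Agent.Results.MP_274868_ag.DegreeUnbounded
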