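import Pool.Agent.Work.MP_274868_ag.Field

/-! A dominant equivariant rational map of degree at most two from `SL 5` times a split torus of
dimension nine to its Lie algebra. -/

namespace Pool.Agent.Results.MP_274868_ag.StableDegreeTwo

open Pool.Agent.Work.MP_274868_ag

theorem result (k K : Type*) [Field k] [CharZero k] [Field K] [Algebra k K] [Algebra (Coord k) K]
    [IsScalarTower k (Coord k) K] [IsFractionRing (Coord k) K] :
    ∃ f : Var → K, (mat f).trace = 0 ∧
      AlgebraicIndependent k (fun v : {v : Var // v ≠ Sum.inl (0, 0)} => f v) ∧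
      (∀ h : Matrix.SpecialLinearGroup (Fin 5) k, ∃ σ : K ≃ₐ[k] K,
        σ ∘ coord k K = conj h (coord k K) ∧ σ ∘ f = conj h f) ∧
      FiniteDimensional (IntermediateField.adjoin k (Set.range f)) K ∧
      Module.finrank (IntermediateField.adjoin k (Set.range f)) K ≤ 2 := by
  let _ : Algebra (Aff k) K :=
    ((algebraMap (Coord k) K).comp (algebraMap (Aff k) (Coord k))).toAlgebra
  have : IsScalarTower (Aff k) (Coord k) K := IsScalarTower.of_algebraMap_eq fun _ => rfl
  have : IsScalarTower k (Aff k) K := IsScalarTower.of_algebraMap_eq fun c => by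
    rw [IsScalarTower.algebraMap_apply k (Coord k) K,
      IsScalarTower.algebraMap_apply k (Aff k) (Coord k)]
    rfl
  have : IsFractionRing (Aff k) K := isFrac
  obtain ⟨u, hu⟩ := exists_indep (k := k) (K := K)
  obtain ⟨f, h1, h2, h3, h4, h5⟩ := group det_coord coord_gen indep_char hu
  refine ⟨f, h1, h2, fun h => ?_, h4, h5⟩
  obtain ⟨σ, hσ⟩ := exists_conj (K := K) h
  exact ⟨σ, hσ, h3 h σ.toAlgHom hσ⟩

end Pool.Agent.Results.MP_274868_ag.StableDegreeTwo
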